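import Pool.Agent.K4H92.LP.KK.Core
set_option autoImplicit false

/-!
# Quasi-polynomial improving paths: the recursion
-/

namespace Pool.Agent.K4H92.LP

open Finset Module

universe u v

section Local

variable {E : Type u} [AddCommGroup E] [Module ℝ E] {I : Type v} [Fintype I] [DecidableEq I]
  {a : I → E →ₗ[ℝ] ℝ} {β : I → ℝ} {c : E →ₗ[ℝ] ℝ} {v : E} {H : ℕ}

open Classical in
/-- the rows above `v` which are met within `H + 1` steps -/
noncomputable def met (a : I → E →ₗ[ℝ] ℝ) (β : I → ℝ) (c : E →ₗ[ℝ] ℝ) (v : E) (H : ℕ) : Finset I :=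
  (act a β c v).filter fun i => ∃ k x, k ≤ H + 1 ∧ Walk a β c k v x ∧ i ∈ tight a β x

theorem mem_met {i : I} : i ∈ met a β c v H ↔ i ∈ act a β c v ∧
    ∃ k x, k ≤ H + 1 ∧ Walk a β c k v x ∧ i ∈ tight a β x := by
  simp [met]

open Classical in
/-- the rows which are kept -/
noncomputable def keep (a : I → E →ₗ[ℝ] ℝ) (β : I → ℝ) (c : E →ₗ[ℝ] ℝ) (v : E) (H : ℕ) : Finset I :=
  univ.filter fun i => a i = 0 ∨ i ∈ tight a β v ∨ i ∈ met a β c v H

theorem mem_keep {i : I} : i ∈ keep a β c v H ↔
    a i = 0 ∨ i ∈ tight a β v ∨ i ∈ met a β c v H := by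
  simp [keep]

/-- all tight rows of the vertices near `v` are kept -/
theorem near_keep {k : ℕ} {x : E} (hk : k ≤ H + 1) (h : Walk a β c k v x) :
    tight a β x ⊆ keep a β c v H := by
  intro i hi
  rw [mem_keep]
  by_cases h0 : a i = 0
  · exact Or.inl h0
  rcases Nat.eq_zero_or_pos k with rfl | hpos
  · cases h with
    | nil v hv => exact Or.inr (Or.inl hi)
  · right; right
    refine mem_met.2 ⟨mem_act.2 ⟨h0, x, h.vert.1, mem_tight.1 hi, h.lt (by omega)⟩, k, x, hk, h, hi⟩

theorem step_near {k : ℕ} {x z : E} (hk : k ≤ H) (h : Walk a β c k v x)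
    (hs : Step (sa a (keep a β c v H)) (sb β (keep a β c v H)) c x z) : Step a β c x z := by
  obtain ⟨_, hz, e, t, he, hce, ht, rfl, hmax⟩ := hs
  rw [sub_dir (near_keep (by omega) h)] at he
  rcases step_end h.vert he with h1 | ⟨s, hs, h1, h2⟩
  · exfalso
    have h3 := hmax (t + 1) (sub_mem.2 fun i _ => h1 (t + 1) (by linarith) i)
    linarith
  · have hst : s ≤ t := hmax s (sub_mem.2 fun i _ => h1.1 i)
    rcases hst.lt_or_eq with hlt | heq
    · exfalso
      obtain ⟨i, hi, hie⟩ := block_row h.vert hs he h1
      have hw : Walk a β c (k + 1) v (x + s • e) :=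
        h.snoc ⟨h.vert, h1, e, s, he, hce, hs, rfl, h2⟩
      have h3 := sub_mem.1 hz.1 i (near_keep (H := H) (by omega) hw hi)
      rw [mem_tight] at hi
      rw [map_add, map_smul, smul_eq_mul] at h3 hi
      have := mul_lt_mul_of_pos_right hlt hie
      linarith
    · rw [← heq]
      exact ⟨h.vert, h1, e, s, he, hce, hs, rfl, h2⟩

theorem walk_near {N : ℕ} {w : E} (hN : N ≤ H) (hv : Vert a β v)
    (h : Walk (sa a (keep a β c v H)) (sb β (keep a β c v H)) c N v w) : Walk a β c N v w := by
  obtain ⟨x, h0, h1, _, h3⟩ := h.seq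
  have key : ∀ j ≤ N, Walk a β c j v (x j) := by
    intro j
    induction j with
    | zero => intro _; rw [h0]; exact .nil v hv
    | succ j ih =>
      intro hj
      exact (ih (by omega)).snoc (step_near (by omega) (ih (by omega)) (h3 j (by omega)))
  rw [← h1]
  exact key N le_rfl

theorem end_near {N : ℕ} {w : E} (hN : N ≤ H) (h : Walk a β c N v w)
    (he : End (sa a (keep a β c v H)) (sb β (keep a β c v H)) c w) : End a β c w := by
  rcases he with h1 | ⟨e, he, hce, hu⟩
  · exact Or.inl fun x hx => h1 x (sub_mem.2 fun i _ => hx i)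
  · rw [sub_dir (near_keep (by omega) h)] at he
    right
    refine ⟨e, he, hce, ?_⟩
    rcases step_end h.vert he with h1 | ⟨s, hs, h1, h2⟩
    · exact unbounded_iff h.vert.1 h1
    · exfalso
      obtain ⟨i, hi, hie⟩ := block_row h.vert hs he h1
      have hw : Walk a β c (N + 1) v (w + s • e) :=
        h.snoc ⟨h.vert, h1, e, s, he, hce, hs, rfl, h2⟩
      have h3 := hu i
      rw [sa, if_pos (near_keep (H := H) (by omega) hw hi)] at h3
      linarith

theorem act_near (hv : Vert a β v) :
    act (sa a (keep a β c v H)) (sb β (keep a β c v H)) c v ⊆ met a β c v H := by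
  intro i hi
  obtain ⟨h0, x, hx, hxi, hcx⟩ := mem_act.1 hi
  have hiK : i ∈ keep a β c v H := by
    by_contra hcon
    exact h0 (by rw [sa, if_neg hcon])
  rw [sa, if_pos hiK] at h0 hxi
  rw [sb, if_pos hiK] at hxi
  rcases mem_keep.1 hiK with h1 | h1 | h1
  · exact absurd h1 h0
  · -- a tight row of `v`
    have hT : ∀ j ∈ tight a β v, a j (x - v) ≤ 0 := by
      intro j hj
      have h2 := sub_mem.1 hx j (mem_keep.2 (Or.inr (Or.inl hj)))
      rw [map_sub, mem_tight.1 hj]
      linarith
    obtain ⟨s, hs, h2⟩ := small_step hv.1 hT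
    refine mem_met.2 ⟨mem_act.2 ⟨h0, v + s • (x - v), h2, ?_, ?_⟩, 0, v, by omega, .nil v hv, h1⟩
    · rw [map_add, map_smul, map_sub, hxi, mem_tight.1 h1]; simp
    · rw [map_add, map_smul, map_sub, smul_eq_mul]
      have := mul_pos hs (sub_pos.2 hcx)
      linarith
  · exact h1

end Local

/-- the bound -/
def kk : ℕ → ℕ → ℕ
  | 0, _ => 0
  | _ + 1, 0 => 0
  | d + 1, k + 1 => 2 * kk (d + 1) k + kk d (k + 1) + 1

theorem kk_mono (d k : ℕ) : kk d k ≤ kk d (k + 1) := by
  cases d with
  | zero => simp [kk]
  | succ d =>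
    rw [kk.eq_3]
    omega

theorem kk_zero (d : ℕ) : kk d 0 = 0 := by
  cases d <;> simp [kk]

theorem kk_le (d : ℕ) : ∀ k, kk d k + 1 ≤ 2 ^ k * (d + k).choose d := by
  induction d with
  | zero =>
    intro k
    rw [Nat.choose_zero_right, mul_one]
    simp only [kk]
    exact Nat.one_le_two_pow
  | succ d ihd =>
    intro k
    induction k with
    | zero => rw [kk_zero]; simp
    | succ k ihk =>
      rw [kk.eq_3]
      have h1 := ihd (k + 1)
      have e : (d + 1 + (k + 1)).choose (d + 1) =
          (d + (k + 1)).choose d + (d + 1 + k).choose (d + 1) := by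
        have e1 : d + 1 + (k + 1) = (d + (k + 1)) + 1 := by ring
        have e2 : d + 1 + k = d + (k + 1) := by ring
        rw [e1, Nat.choose_succ_succ, e2]
      rw [e, mul_add, pow_succ]
      rw [pow_succ] at h1
      nlinarith

theorem kk_walk (d : ℕ) : ∀ (k : ℕ) (E : Type u) [AddCommGroup E] [Module ℝ E]
    [FiniteDimensional ℝ E] (I : Type v) [Fintype I] [DecidableEq I] (a : I → E →ₗ[ℝ] ℝ)
    (β : I → ℝ) (c : E →ₗ[ℝ] ℝ), finrank ℝ E = d → ∀ v, Vert a β v →
      (act a β c v).card < 2 ^ k → ∃ (N : ℕ) (w : E), N ≤ kk d k ∧ Walk a β c N v w ∧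
        End a β c w := by
  induction d with
  | zero =>
    intro k E _ _ _ I _ _ a β c hn v hv _
    have : Subsingleton E := Module.finrank_zero_iff.1 hn
    refine ⟨0, v, Nat.zero_le _, .nil v hv, Or.inl fun x _ => ?_⟩
    rw [Subsingleton.elim x v]
  | succ d ihd =>
    intro k
    induction k with
    | zero =>
      intro E _ _ _ I _ _ a β c _ v hv hcard
      rw [pow_zero, Nat.lt_one_iff, card_eq_zero] at hcard
      exact ⟨0, v, Nat.zero_le _, .nil v hv, end_of_act hv hcard⟩
    | succ k ihk =>
      intro E _ _ _ I _ _ a β c hn v hv hcard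
      classical
      set H := kk (d + 1) k with hH
      have hkk : kk (d + 1) (k + 1) = 2 * H + kk d (k + 1) + 1 := by rw [kk.eq_3]
      by_cases hR : (met a β c v H).card < 2 ^ k
      · obtain ⟨N, w, h1, h2, h3⟩ := ihk E I (sa a (keep a β c v H)) (sb β (keep a β c v H)) c hn v
          (sub_vert (near_keep (by omega) (.nil v hv)) hv)
          (lt_of_le_of_lt (card_le_card (act_near hv)) hR)
        have h4 := walk_near h1 hv h2
        exact ⟨N, w, by omega, h4, end_near h1 h4 h3⟩
      · push Not at hR
        -- the best vertex on each of the faces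
        have hface : ∀ i ∈ met a β c v H, ∃ (N : ℕ) (w : E), N ≤ H + 1 + kk d (k + 1) ∧
            Walk a β c N v w ∧ (End a β c w ∨ ∀ x ∈ PP a β, a i x = β i → c x ≤ c w) := by
          intro i hi
          obtain ⟨hia, k₁, x₁, hk₁, hw₁, hix⟩ := mem_met.1 hi
          obtain ⟨hi0, _⟩ := mem_act.1 hia
          have hfin : finrank ℝ (LinearMap.ker (a i)) = d := by
            have := Module.Dual.finrank_ker_add_one_of_ne_zero (f := a i) hi0
            omega
          have hsub : act (ra a i) (rb a β x₁) (c.comp (LinearMap.ker (a i)).subtype) 0 ⊆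
              act a β c v := by
            intro j hj
            obtain ⟨j0, g, hg, hjg, hcg⟩ := mem_act.1 hj
            refine mem_act.2 ⟨fun h0 => j0 ?_, x₁ + (g : E), mem_res.1 hg, ?_, ?_⟩
            · rw [ra, h0, LinearMap.zero_comp]
            · rw [ra_apply, rb] at hjg
              rw [map_add, hjg]; ring
            · rw [map_zero, LinearMap.comp_apply, Submodule.subtype_apply] at hcg
              rw [map_add]
              have := hw₁.le
              linarith
          obtain ⟨N₂, g, h1, h2, h3⟩ := ihd (k + 1) (LinearMap.ker (a i)) I (ra a i) (rb a β x₁)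
            (c.comp (LinearMap.ker (a i)).subtype) hfin 0 (vert_zero hw₁.vert)
            (lt_of_le_of_lt (card_le_card hsub) hcard)
          have h4 := walk_res hix h2
          rw [ZeroMemClass.coe_zero, add_zero] at h4
          refine ⟨N₂ + k₁, x₁ + (g : E), by omega, hw₁.trans h4, ?_⟩
          rcases h3 with h3 | ⟨e, e1, e2, e3⟩
          · right
            intro x hx hxi
            have h7 : x - x₁ ∈ LinearMap.ker (a i) := by
              rw [LinearMap.mem_ker, map_sub, hxi, mem_tight.1 hix, sub_self]
            have h8 : (⟨x - x₁, h7⟩ : LinearMap.ker (a i)) ∈ PP (ra a i) (rb a β x₁) := by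
              rw [mem_res]
              simpa using hx
            have h9 := h3 _ h8
            simp only [LinearMap.comp_apply, Submodule.subtype_apply, map_sub] at h9
            rw [map_add]
            linarith
          · left; right
            rw [tight_res] at e1
            exact ⟨e, dir_res (tight_mem hix g) e1, e2, e3⟩
        choose! Nf wf hf1 hf2 hf3 using hface
        by_cases hend : ∃ i ∈ met a β c v H, End a β c (wf i)
        · obtain ⟨i, hi, he⟩ := hend
          have := hf1 i hi
          exact ⟨Nf i, wf i, by omega, hf2 i hi, he⟩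
        · push Not at hend
          have hne : (met a β c v H).Nonempty := by
            rw [← card_pos]
            exact lt_of_lt_of_le (Nat.two_pow_pos k) hR
          obtain ⟨i, hi, hmax⟩ := exists_max_image _ (fun i => c (wf i)) hne
          have hact : act a β c (wf i) ⊆ act a β c v \ met a β c v H := by
            intro j hj
            obtain ⟨j0, x, hx, hjx, hcx⟩ := mem_act.1 hj
            refine mem_sdiff.2 ⟨mem_act.2 ⟨j0, x, hx, hjx, (hf2 i hi).le.trans_lt hcx⟩, fun hjm => ?_⟩
            have h5 := (hf3 j hjm).resolve_left (hend j hjm) x hx hjx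
            have h6 := hmax j hjm
            linarith
          have hcard2 : (act a β c (wf i)).card < 2 ^ k := by
            have h5 := card_le_card hact
            have h6 : met a β c v H ⊆ act a β c v := fun j hj => (mem_met.1 hj).1
            rw [card_sdiff_of_subset h6] at h5
            rw [pow_succ] at hcard
            omega
          obtain ⟨N₃, w, h1, h2, h3⟩ := ihk E I a β c hn (wf i) (hf2 i hi).vert hcard2
          have := hf1 i hi
          exact ⟨N₃ + Nf i, w, by omega, (hf2 i hi).trans h2, h3⟩

end Pool.Agent.K4H92.LP
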