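import Pool.Agent.K4H92.LP.TU.Rec
set_option autoImplicit false

/-!
# Quasi-polynomial improving paths (after Kalai and Kleitman)
-/

namespace Pool.Agent.K4H92.LP

open Finset Module

universe u v

section Basic

variable {E : Type u} [AddCommGroup E] [Module ℝ E] {I : Type v} [Fintype I]
  {a : I → E →ₗ[ℝ] ℝ} {β : I → ℝ} {c : E →ₗ[ℝ] ℝ}

theorem block_row {x e : E} {t : ℝ} (hx : Vert a β x) (ht : 0 < t)
    (he : Dir a (tight a β x) e) (hy : Vert a β (x + t • e)) :
    ∃ k ∈ tight a β (x + t • e), 0 < a k e := by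
  by_contra hcon
  push Not at hcon
  apply he.ne_zero
  apply hy.2
  intro i hi
  have h1 := hcon i hi
  rw [mem_tight, map_add, map_smul, smul_eq_mul] at hi
  have h2 := hx.1 i
  have h3 : 0 ≤ t * a i e := by linarith
  have h4 := nonneg_of_mul_nonneg_right h3 ht
  linarith

theorem unbounded_iff {x e : E} (hx : x ∈ PP a β)
    (h : ∀ t : ℝ, 0 ≤ t → x + t • e ∈ PP a β) : ∀ i, a i e ≤ 0 := by
  intro i
  by_contra hcon
  push Not at hcon
  have h0 := hx i
  have h3 := h ((β i - a i x + 1) / a i e) (div_nonneg (by linarith) hcon.le) i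
  rw [map_add, map_smul, smul_eq_mul, div_mul_cancel₀ _ hcon.ne'] at h3
  linarith

theorem Walk.vert {k : ℕ} {v w : E} (h : Walk a β c k v w) : Vert a β w := by
  induction h with
  | nil v hv => exact hv
  | cons k v w z _ _ ih => exact ih

theorem Walk.snoc {k : ℕ} {v w z : E} (h : Walk a β c k v w) (h' : Step a β c w z) :
    Walk a β c (k + 1) v z := by
  have h1 : Walk a β c (0 + 1) w z := .cons _ _ _ _ h' (.nil z h'.2.1)
  have h2 := h.trans h1
  have e : 0 + 1 + k = k + 1 := by omega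
  rwa [e] at h2

theorem Walk.le {k : ℕ} {v w : E} (h : Walk a β c k v w) : c v ≤ c w := by
  induction h with
  | nil v hv => exact le_rfl
  | cons k v w z h _ ih => exact h.lt.le.trans ih

theorem Walk.lt {k : ℕ} {v w : E} (h : Walk a β c k v w) (hk : k ≠ 0) : c v < c w := by
  cases h with
  | nil v hv => exact absurd rfl hk
  | cons k v w z h h' => exact h.lt.trans_le h'.le

open Classical in
/-- the rows which meet the polyhedron above the level of `v` -/
noncomputable def act (a : I → E →ₗ[ℝ] ℝ) (β : I → ℝ) (c : E →ₗ[ℝ] ℝ) (v : E) : Finset I :=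
  univ.filter fun i => a i ≠ 0 ∧ ∃ x ∈ PP a β, a i x = β i ∧ c v < c x

theorem mem_act {v : E} {i : I} :
    i ∈ act a β c v ↔ a i ≠ 0 ∧ ∃ x ∈ PP a β, a i x = β i ∧ c v < c x := by
  simp [act]

/-- without rows above, the walk ends -/
theorem end_of_act {v : E} (hv : Vert a β v) (h : act a β c v = ∅) : End a β c v := by
  by_cases hopt : ∀ e, Dir a (tight a β v) e → c e ≤ 0
  · exact Or.inl fun x hx => vert_le hv hopt hx
  · push Not at hopt
    obtain ⟨e, he, hce⟩ := hopt
    rcases step_end hv he with h1 | ⟨t, ht, h1, h2⟩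
    · exact Or.inr ⟨e, he, hce, unbounded_iff hv.1 h1⟩
    · exfalso
      obtain ⟨k, hk, hke⟩ := block_row hv ht he h1
      have h3 : k ∈ act a β c v := by
        refine mem_act.2 ⟨fun h0 => ?_, v + t • e, h1.1, mem_tight.1 hk, ?_⟩
        · rw [h0] at hke
          exact lt_irrefl _ hke
        · rw [map_add, map_smul, smul_eq_mul]
          have := mul_pos ht hce
          linarith
      rw [h] at h3
      exact absurd h3 (notMem_empty _)

end Basic

section Sub

variable {E : Type u} [AddCommGroup E] [Module ℝ E] {I : Type v} [Fintype I] [DecidableEq I]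
  {a : I → E →ₗ[ℝ] ℝ} {β : I → ℝ} {c : E →ₗ[ℝ] ℝ} {J : Finset I}

/-- only the rows in `J` -/
def sa (a : I → E →ₗ[ℝ] ℝ) (J : Finset I) : I → E →ₗ[ℝ] ℝ := fun i => if i ∈ J then a i else 0

/-- only the rows in `J` -/
def sb (β : I → ℝ) (J : Finset I) : I → ℝ := fun i => if i ∈ J then β i else 0

theorem sub_mem {x : E} : x ∈ PP (sa a J) (sb β J) ↔ ∀ i ∈ J, a i x ≤ β i := by
  constructor
  · intro h i hi
    have := h i
    rwa [sa, sb, if_pos hi, if_pos hi] at this
  · intro h i
    by_cases hi : i ∈ J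
    · rw [sa, sb, if_pos hi, if_pos hi]; exact h i hi
    · rw [sa, sb, if_neg hi, if_neg hi]; exact le_rfl

theorem sub_tight {x : E} {i : I} : i ∈ tight (sa a J) (sb β J) x ↔ (i ∈ J → i ∈ tight a β x) := by
  rw [mem_tight, sa, sb]
  by_cases hi : i ∈ J
  · rw [if_pos hi, if_pos hi, mem_tight]
    exact ⟨fun h _ => h, fun h => h hi⟩
  · rw [if_neg hi, if_neg hi]
    exact ⟨fun _ h => absurd h hi, fun _ => rfl⟩

theorem sub_dir {x e : E} (hJ : tight a β x ⊆ J) :
    Dir (sa a J) (tight (sa a J) (sb β J) x) e ↔ Dir a (tight a β x) e := by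
  have h1 : ∀ i ∈ tight a β x, sa a J i = a i := fun i hi => by rw [sa, if_pos (hJ hi)]
  have h2 : ∀ i ∈ tight (sa a J) (sb β J) x, i ∉ tight a β x → sa a J i = 0 := by
    intro i hi hi'
    rw [sub_tight] at hi
    rw [sa, if_neg fun h => hi' (hi h)]
  have h3 : tight a β x ⊆ tight (sa a J) (sb β J) x := fun i hi => sub_tight.2 fun _ => hi
  have h4 : lin (sa a J) (tight (sa a J) (sb β J) x) e = lin a (tight a β x) e := by
    rw [lin_apply, lin_apply]
    congr 1
    rw [← sum_subset h3 fun i hi hi' => by rw [h2 i hi hi']; rfl]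
    exact sum_congr rfl fun i hi => by rw [h1 i hi]
  have h5 : ∀ i ∈ tight (sa a J) (sb β J) x, ∀ g : E, i ∉ tight a β x → sa a J i g = 0 :=
    fun i hi g hi' => by rw [h2 i hi hi']; rfl
  constructor
  · rintro ⟨p1, p2, p3⟩
    refine ⟨fun i hi => ?_, by rw [← h4]; exact p2, fun g hg => p3 g fun i hi h0 => ?_⟩
    · have := p1 i (h3 hi)
      rwa [h1 i hi] at this
    · by_cases hi' : i ∈ tight a β x
      · rw [h1 i hi'] at h0 ⊢
        exact hg i hi' h0
      · exact h5 i hi g hi'
  · rintro ⟨p1, p2, p3⟩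
    refine ⟨fun i hi => ?_, by rw [h4]; exact p2, fun g hg => p3 g fun i hi h0 => ?_⟩
    · by_cases hi' : i ∈ tight a β x
      · rw [h1 i hi']; exact p1 i hi'
      · exact (h5 i hi e hi').le
    · have := hg i (h3 hi)
      rw [h1 i hi] at this
      exact this h0

theorem sub_vert {x : E} (hJ : tight a β x ⊆ J) (hx : Vert a β x) :
    Vert (sa a J) (sb β J) x := by
  refine ⟨sub_mem.2 fun i _ => hx.1 i, fun g hg => hx.2 g fun i hi => ?_⟩
  have := hg i (sub_tight.2 fun _ => hi)
  rwa [sa, if_pos (hJ hi)] at this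

end Sub

end Pool.Agent.K4H92.LP
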